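import Pool.Agent.U837.GV.Vert
import Pool.Agent.U837.CC.Oc
import Pool.Agent.U837.CC.Lo

set_option autoImplicit false
set_option maxHeartbeats 4000000

/-!
Goldbach graphs: the vertices which are multiples of integers near concatenations, in all the graphs at the same time.
-/

namespace Pool.Agent.U837.GV
open Finset Polynomial
open Pool.Agent.U837.CC
open Pool.Agent.W93.TD (HLs)
open Pool.Agent.W93.PG (WinP)
open Pool.Agent.N469.GG (Nb)

theorem cat_vert (D W J J₂ T : ℕ) (c₂ : ℝ) (hc₂ : 0 < c₂) (n₀ : ℕ)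
    (hdeg : ∀ n : ℕ, n₀ ≤ n →
      (c₂ * (n / Real.log n ^ 2) ≤ ((Nb n 0).card : ℝ)) ∧
      (∀ U a M : ℕ, Even a → 2 ≤ a → a ≤ n → M ≤ n / 2 → n ≤ 4 * M → HLs (1 / 2) U M (fun _ : Fin 1 => a) →
        c₂ * (n / Real.log n ^ 2) ≤ ((Nb n a).card : ℝ)) ∧
      (∀ a : ℕ, Even a → n < a → a ≤ 2 * n → WinP (1 / 2) 1 a → c₂ * (n / Real.log n ^ 2) ≤ ((Nb n a).card : ℝ))) :
    ∃ x₀ : ℕ, ∀ x : ℕ, x₀ ≤ x → ∀ S ⊆ Icc 1 x, (∀ t ∈ S, ∃ (b : ℕ) (F : List ℤ[X]), 2 ≤ b ∧ (b : ℝ) ≤ Real.log x ^ W ∧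
      Adm D (Real.log x ^ W) t F ∧ ∃ (q : ℤ) (h n a : ℕ), |(q : ℝ) - (cat b F t : ℕ)| ≤ Real.log x ^ W ∧ 1 ≤ h ∧
      (h : ℝ) ≤ Real.log x ^ J ∧ (a : ℤ) = h * q ∧ Even a ∧ a ≤ 2 * n ∧ (n : ℝ) ≤ Real.log x ^ J₂ * a ∧
      ((Nb n a).card : ℝ) < c₂ * (n / Real.log n ^ 2)) → (S.card : ℝ) ≤ x / Real.log x ^ T := by
  classical
  obtain ⟨U, hU⟩ : ∃ U, U = T + 8 := ⟨_, rfl⟩
  obtain ⟨V, c₁, U', k₁, hone⟩ := one_cl D (W + 1) U
  obtain ⟨M, hM⟩ : ∃ M, M = 8 * 2 ^ c₁ := ⟨_, rfl⟩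
  obtain ⟨k₂, hvert⟩ := v_vert (cc_tcls D V 1 one_ne_zero) 1 (J + 1) (J₂ + J + 1) M (W + 1) U' c₂ hc₂ n₀ hdeg
  obtain ⟨x₁, h1⟩ := Pool.Agent.H373R2.T7.ev_L' ((k₁ : ℝ) * 2 + k₂ * 2 + 2 ^ (U + J + J₂ + W + 8) + 4 * (D * (D + 1) + 1) + 4 * (T + 1) + 10)
  obtain ⟨x₂, h2⟩ := Pool.Agent.H373R2.T7.ev_log' (T + 2 * W + 8) 8
  refine ⟨x₁ + x₂ + D + 5, fun x hx S hSx hS => ?_⟩
  have hL := h1 x (by omega)
  have hsq := h2 x (by omega)
  obtain ⟨L, hLd⟩ : ∃ L, L = Real.log (x : ℝ) := ⟨_, rfl⟩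
  rw [← hLd] at hL hsq hS ⊢
  have hD0 : (0 : ℝ) ≤ D := Nat.cast_nonneg D
  have hT0 : (0 : ℝ) ≤ T := Nat.cast_nonneg T
  have q1 : (0 : ℝ) ≤ k₁ := Nat.cast_nonneg _
  have q2 : (0 : ℝ) ≤ k₂ := Nat.cast_nonneg _
  have q3 : (0 : ℝ) < 2 ^ (U + J + J₂ + W + 8) := by positivity
  have q4 : (0 : ℝ) ≤ 4 * (D * (D + 1) + 1) := by positivity
  have q5 : (0 : ℝ) ≤ 4 * (T + 1) := by positivity
  have hL10 : 10 ≤ L := by linarith
  have hL1 : 1 ≤ L := by linarith
  have hL0 : 0 < L := by linarith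
  have hx1 : 1 ≤ x := by omega
  have hx0 : (0 : ℝ) < x := by exact_mod_cast hx1
  have hxr : (1 : ℝ) ≤ x := by exact_mod_cast hx1
  have hsX : √(x : ℝ) * √(x : ℝ) = x := Real.mul_self_sqrt hx0.le
  have hs0 : 0 < √(x : ℝ) := Real.sqrt_pos.2 hx0
  have hLW : 1 ≤ L ^ W := one_le_pow₀ hL1
  have hLJ : 1 ≤ L ^ J := one_le_pow₀ hL1
  have hLJ2 : 1 ≤ L ^ J₂ := one_le_pow₀ hL1
  have hLT : 1 ≤ L ^ (T + 1) := one_le_pow₀ hL1
  -- the small arguments
  obtain ⟨S₁, hS₁⟩ : ∃ S₁ : Finset ℕ, S₁ = S.filter (fun t : ℕ => (t : ℝ) * L ^ (T + 1) < x) := ⟨_, rfl⟩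
  obtain ⟨S₂, hS₂⟩ : ∃ S₂ : Finset ℕ, S₂ = S.filter (fun t : ℕ => ¬ (t : ℝ) * L ^ (T + 1) < x) := ⟨_, rfl⟩
  have hcard : S.card = S₁.card + S₂.card := by rw [hS₁, hS₂, card_filter_add_card_filter_not]
  have hc1 : (S₁.card : ℝ) ≤ x / L ^ (T + 1) := by
    have h3 : S₁ ⊆ Icc 1 ⌊(x : ℝ) / L ^ (T + 1)⌋₊ := by
      intro t ht
      rw [hS₁, mem_filter] at ht
      have h4 := mem_Icc.1 (hSx ht.1)
      rw [mem_Icc]
      refine ⟨h4.1, Nat.le_floor ?_⟩
      rw [le_div_iff₀ (by positivity)]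
      exact ht.2.le
    have h4 := card_le_card h3
    rw [Nat.card_Icc, Nat.add_sub_cancel] at h4
    have h5 : (S₁.card : ℝ) ≤ (⌊(x : ℝ) / L ^ (T + 1)⌋₊ : ℕ) := by exact_mod_cast h4
    exact h5.trans (Nat.floor_le (by positivity))
  -- the classes
  obtain ⟨K1, hK1⟩ : ∃ K1 : ℕ, K1 = ⌊L ^ 2⌋₊ + 1 := ⟨_, rfl⟩
  have hK1r : (K1 : ℝ) ≤ L ^ 3 := by
    have : (⌊L ^ 2⌋₊ : ℝ) ≤ L ^ 2 := Nat.floor_le (by positivity)
    rw [hK1]
    push_cast
    have h3 : 1 ≤ L ^ 2 := one_le_pow₀ hL1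
    have h4 : L ^ 3 = L ^ 2 * L := by ring
    rw [h4]
    nlinarith
  obtain ⟨Z, hZ⟩ : ∃ Z : ℕ × ℕ → Finset ℕ, Z = fun i => S₂.filter (fun t : ℕ => t ≤ x / 2 ^ i.2 ∧ x / 2 ^ i.2 ≤ 2 * t ∧
      L ≤ 2 * (i.1 : ℝ) ∧ ∃ (b : ℕ) (F : List ℤ[X]), 2 ≤ b ∧ (b : ℝ) ≤ L ^ W ∧ Adm D (L ^ W) t F ∧
      2 ^ i.1 ≤ 2 * cat b F t ∧ cat b F t ≤ 2 ^ i.1 ∧ (2 * L ^ W ≤ (cat b F t : ℕ)) ∧
      ∃ (q : ℤ) (h n a : ℕ), |(q : ℝ) - (cat b F t : ℕ)| ≤ L ^ W ∧ 1 ≤ h ∧
      (h : ℝ) ≤ L ^ J ∧ (a : ℤ) = h * q ∧ Even a ∧ a ≤ 2 * n ∧ (n : ℝ) ≤ L ^ J₂ * a ∧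
      ((Nb n a).card : ℝ) < c₂ * (n / Real.log n ^ 2)) := ⟨_, rfl⟩
  have hsub : S₂ ⊆ (range K1 ×ˢ range K1).biUnion Z := by
    intro t ht
    have ht' := ht
    rw [hS₂, mem_filter] at ht'
    obtain ⟨htS, htx⟩ := ht'
    push Not at htx
    have htI := mem_Icc.1 (hSx htS)
    obtain ⟨b, F, g1, g2, g3, grest⟩ := hS t htS
    have htr : (1 : ℝ) ≤ t := by exact_mod_cast htI.1
    -- lower bound for the value
    have htbig : 4 * √(x : ℝ) * L ^ (2 * W + 5) ≤ t := by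
      have e1 : L ^ (T + 2 * W + 8) = L ^ (T + 1) * L ^ (2 * W + 7) := by rw [← pow_add]; congr 1; ring
      have e2 : 4 * √(x : ℝ) * L ^ (2 * W + 5) * L ^ (T + 1) ≤ t * L ^ (T + 1) := by
        have e3 : L ^ (2 * W + 5) ≤ L ^ (2 * W + 7) := pow_le_pow_right₀ hL1 (by omega)
        have e4 : L ^ (T + 1) * L ^ (2 * W + 5) ≤ L ^ (T + 2 * W + 8) := by
          rw [e1]
          exact mul_le_mul_of_nonneg_left e3 (by positivity)
        calc 4 * √(x : ℝ) * L ^ (2 * W + 5) * L ^ (T + 1) = 4 * √(x : ℝ) * (L ^ (T + 1) * L ^ (2 * W + 5)) := by ring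
          _ ≤ 4 * √(x : ℝ) * L ^ (T + 2 * W + 8) := mul_le_mul_of_nonneg_left e4 (by positivity)
          _ ≤ 4 * √(x : ℝ) * (√(x : ℝ) / 8) := mul_le_mul_of_nonneg_left (by linarith) (by positivity)
          _ = √(x : ℝ) * √(x : ℝ) / 2 := by ring
          _ ≤ x := by rw [hsX]; linarith
          _ ≤ _ := htx
      exact le_of_mul_le_mul_right e2 (by positivity)
    have hs1 : 1 ≤ √(x : ℝ) := by
      rw [Real.one_le_sqrt]
      exact hxr
    have hLW5 : L ^ W * (L * L) ≤ L ^ (2 * W + 5) := by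
      calc L ^ W * (L * L) = L ^ (W + 2) := by ring
        _ ≤ _ := pow_le_pow_right₀ hL1 (by omega)
    have htD : 2 * ((D : ℝ) * L ^ W) ≤ t := by
      have e1 : 2 * (D : ℝ) ≤ L * L := by
        have : 4 * (D * (D + 1) + 1 : ℝ) ≤ L := by linarith
        nlinarith
      have e2 : L ^ W * (2 * D) ≤ L ^ W * (L * L) := mul_le_mul_of_nonneg_left e1 (by positivity)
      have e3 : 1 * L ^ (2 * W + 5) ≤ 4 * √(x : ℝ) * L ^ (2 * W + 5) :=
        mul_le_mul_of_nonneg_right (by linarith) (by positivity)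
      linarith
    have hcl := cat_low D (L ^ W) hLW t b htD htI.1 F g3
    have hcl' : (t : ℝ) ≤ 2 * (cat b F t : ℕ) := by exact_mod_cast hcl
    have hcsq : √(x : ℝ) * L ^ (2 * W + 5) ≤ (cat b F t : ℕ) := by
      have : 0 ≤ √(x : ℝ) * L ^ (2 * W + 5) := by positivity
      linarith
    have hcW : 2 * L ^ W ≤ (cat b F t : ℕ) := by
      have e1 : 2 * L ^ W ≤ L ^ W * (L * L) := by
        rw [mul_comm]
        exact mul_le_mul_of_nonneg_left (by nlinarith) (by positivity)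
      have e2 : 1 * L ^ (2 * W + 5) ≤ √(x : ℝ) * L ^ (2 * W + 5) := mul_le_mul_of_nonneg_right hs1 (by positivity)
      linarith
    have hc2' : 2 ≤ cat b F t := by
      have : (2 : ℝ) ≤ (cat b F t : ℕ) := by linarith
      exact_mod_cast this
    obtain ⟨k, hk⟩ : ∃ k, k = Nat.clog 2 (cat b F t) := ⟨_, rfl⟩
    have hk1 : cat b F t ≤ 2 ^ k := by rw [hk]; exact Nat.le_pow_clog (by norm_num) _
    have hk2 : 2 ^ k ≤ 2 * cat b F t := by
      have h3 : 2 ^ (k - 1) < cat b F t := by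
        rw [hk]
        exact Nat.pow_pred_clog_lt_self (by norm_num) (by omega)
      have h4 : 0 < k := by rw [hk]; exact Nat.clog_pos (by norm_num) hc2'
      have h5 : 2 ^ k = 2 * 2 ^ (k - 1) := by
        rw [← pow_succ']
        congr 1
        omega
      omega
    have hlog2a : Real.log 2 < 0.7 := by linarith [Real.log_two_lt_d9]
    have hlog2b : 0.69 < Real.log 2 := by linarith [Real.log_two_gt_d9]
    have hkL : L ≤ 2 * (k : ℝ) := by
      have h3 : √(x : ℝ) ≤ 2 ^ k := by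
        have h4 : ((cat b F t : ℕ) : ℝ) ≤ 2 ^ k := by exact_mod_cast hk1
        have h5 : √(x : ℝ) * 1 ≤ √(x : ℝ) * L ^ (2 * W + 5) := mul_le_mul_of_nonneg_left (one_le_pow₀ hL1) hs0.le
        linarith
      have h4 := Real.log_le_log hs0 h3
      rw [Real.log_sqrt hx0.le, ← hLd, Real.log_pow] at h4
      have hk0 : (0 : ℝ) ≤ k := Nat.cast_nonneg k
      nlinarith
    have hkU : (k : ℝ) ≤ L ^ 2 := by
      have h3 := cat_le D (L ^ W) hLW t x b htI.1 htI.2 g1 g2 F g3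
      have h4 : ((D : ℝ) + 1) * (L ^ W * L ^ W) ≤ x := by
        have e1 : (D : ℝ) + 1 ≤ L := by
          have : 4 * (D * (D + 1) + 1 : ℝ) ≤ L := by linarith
          nlinarith
        have e2 : L * (L ^ W * L ^ W) ≤ L ^ (T + 2 * W + 8) := by
          calc L * (L ^ W * L ^ W) = L ^ (2 * W + 1) := by ring
            _ ≤ _ := pow_le_pow_right₀ hL1 (by omega)
        have e3 : √(x : ℝ) ≤ x := by nlinarith
        calc ((D : ℝ) + 1) * (L ^ W * L ^ W) ≤ L * (L ^ W * L ^ W) := mul_le_mul_of_nonneg_right e1 (by positivity)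
          _ ≤ x := by linarith
      have h5 : ((cat b F t : ℕ) : ℝ) ≤ (x : ℝ) ^ (D * (D + 1)) := by
        refine h3.trans ?_
        calc (((D : ℝ) + 1) * (L ^ W * L ^ W) * (x : ℝ) ^ D) ^ D ≤ (x * (x : ℝ) ^ D) ^ D := by
              apply pow_le_pow_left₀ (by positivity)
              exact mul_le_mul_of_nonneg_right h4 (by positivity)
          _ = (x : ℝ) ^ (D * (D + 1)) := by
              rw [← pow_succ', ← pow_mul]
              congr 1
              ring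
      have h6 : (2 : ℝ) ^ k ≤ (x : ℝ) ^ (D * (D + 1) + 1) := by
        have h7 : ((2 : ℝ)) ^ k ≤ 2 * (cat b F t : ℕ) := by exact_mod_cast hk2
        have h8 : (2 : ℝ) ≤ x := by
          have : (2 : ℕ) ≤ x := by omega
          exact_mod_cast this
        calc (2 : ℝ) ^ k ≤ 2 * (cat b F t : ℕ) := h7
          _ ≤ x * (x : ℝ) ^ (D * (D + 1)) := mul_le_mul h8 h5 (Nat.cast_nonneg _) hx0.le
          _ = _ := by rw [pow_succ]; ring
      have h7 := Real.log_le_log (by positivity) h6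
      rw [Real.log_pow, Real.log_pow, ← hLd] at h7
      push_cast at h7
      have hk0 : (0 : ℝ) ≤ k := Nat.cast_nonneg k
      have h8 : 4 * (D * (D + 1) + 1 : ℝ) ≤ L := by linarith
      nlinarith
    obtain ⟨j, hj⟩ : ∃ j, j = Nat.log 2 (x / t) := ⟨_, rfl⟩
    have hxt : x / t ≠ 0 := by
      have := Nat.div_pos htI.2 (by omega : 0 < t)
      omega
    have hj1 : 2 ^ j ≤ x / t := by rw [hj]; exact Nat.pow_log_le_self 2 hxt
    have hj2 : x / t < 2 ^ (j + 1) := by rw [hj]; exact Nat.lt_pow_succ_log_self (by norm_num) _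
    have hj3 : t * 2 ^ j ≤ x := by
      calc t * 2 ^ j ≤ t * (x / t) := Nat.mul_le_mul_left _ hj1
        _ ≤ x := Nat.mul_div_le x t
    have hj4 : x < 2 ^ (j + 1) * t := (Nat.div_lt_iff_lt_mul (by omega)).1 hj2
    have hj5 : (j : ℝ) ≤ L ^ 2 := by
      have h3 : (2 : ℝ) ^ j ≤ L ^ (T + 1) := by
        have h4 : (t : ℝ) * 2 ^ j ≤ x := by exact_mod_cast hj3
        have h5 : (t : ℝ) * 2 ^ j ≤ t * L ^ (T + 1) := h4.trans htx
        exact le_of_mul_le_mul_left h5 (by linarith)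
      have h4 := Real.log_le_log (by positivity) h3
      rw [Real.log_pow, Real.log_pow] at h4
      push_cast at h4
      have h5 : Real.log L ≤ L := (Real.log_le_sub_one_of_pos hL0).trans (by linarith)
      have h6 : 4 * (T + 1 : ℝ) ≤ L := by linarith
      have hj0 : (0 : ℝ) ≤ j := Nat.cast_nonneg j
      have h7 : ((T : ℝ) + 1) * Real.log L ≤ (T + 1) * L := mul_le_mul_of_nonneg_left h5 (by positivity)
      nlinarith
    rw [mem_biUnion]
    refine ⟨(k, j), ?_, ?_⟩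
    · rw [mem_product, mem_range, mem_range]
      have h3 : k ≤ ⌊L ^ 2⌋₊ := Nat.le_floor hkU
      have h4 : j ≤ ⌊L ^ 2⌋₊ := Nat.le_floor hj5
      simp only
      omega
    · rw [hZ]
      simp only
      rw [mem_filter]
      refine ⟨ht, ?_, ?_, hkL, b, F, g1, g2, g3, hk2, hk1, hcW, grest⟩
      · rw [Nat.le_div_iff_mul_le (by positivity)]
        exact hj3
      · have : x / 2 ^ j < 2 * t := by
          rw [Nat.div_lt_iff_lt_mul (by positivity)]
          calc x < 2 ^ (j + 1) * t := hj4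
            _ = 2 * t * 2 ^ j := by rw [pow_succ]; ring
        omega
  have hZb : ∀ i ∈ range K1 ×ˢ range K1, ((Z i).card : ℝ) ≤ x / L ^ (T + 7) := by
    rintro ⟨k, j⟩ -
    by_cases hkL : L ≤ 2 * (k : ℝ)
    swap
    · have : Z (k, j) = ∅ := by
        rw [hZ]
        simp only
        rw [filter_eq_empty_iff]
        intro t _ hcon
        exact hkL hcon.2.2.1
      rw [this, card_empty, Nat.cast_zero]
      positivity
    have hk1 : k₁ ≤ k := by
      have : (k₁ : ℝ) ≤ k := by linarith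
      exact_mod_cast this
    have hk2 : k₂ ≤ k := by
      have : (k₂ : ℝ) ≤ k := by linarith
      exact_mod_cast this
    have hkpow : (2 : ℝ) ^ (U + J + J₂ + W + 7) ≤ k := by
      have e : (2 : ℝ) ^ (U + J + J₂ + W + 8) = 2 ^ (U + J + J₂ + W + 7) * 2 := by rw [← pow_succ]
      linarith
    have hkr : (1 : ℝ) ≤ k := le_trans (one_le_pow₀ (by norm_num)) hkpow
    have hk0 : (0 : ℝ) < k := by linarith
    have hconv : ∀ m : ℕ, m ≤ U + J + J₂ + W + 7 → L ^ m ≤ (k : ℝ) ^ (m + 1) := by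
      intro m hm
      calc L ^ m ≤ (2 * k) ^ m := pow_le_pow_left₀ hL0.le hkL m
        _ = 2 ^ m * (k : ℝ) ^ m := mul_pow _ _ _
        _ ≤ k * (k : ℝ) ^ m := by
            apply mul_le_mul_of_nonneg_right _ (by positivity)
            exact le_trans (pow_le_pow_right₀ (by norm_num) hm) hkpow
        _ = (k : ℝ) ^ (m + 1) := by rw [pow_succ]; ring
    obtain ⟨k', hk'⟩ : ∃ k', k' = k + c₁ := ⟨_, rfl⟩
    have hkk' : (k : ℝ) ≤ k' := by exact_mod_cast (by omega : k ≤ k')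
    obtain ⟨Q, hQ⟩ : ∃ Q : ℤ → Prop, Q = fun (y : ℤ) => ∀ h n : ℕ, 1 ≤ h → h ≤ k' ^ (J + 1) → h * 2 ^ k' ≤ M * n →
      n ≤ k' ^ (J₂ + J + 1) * 2 ^ k' → ∀ (q : ℤ) (a : ℕ), |q - y| ≤ (k' : ℤ) ^ (W + 1) → (a : ℤ) = h * q → Even a →
      a ≤ 2 * n → c₂ * (n / Real.log n ^ 2) ≤ ((Nb n a).card : ℝ) := ⟨_, rfl⟩
    have key := hone k hk1 Q (by
      intro p hp c hc
      rw [← hk'] at hp hc ⊢
      have h3 := hvert k' (by omega) p hp c (by
        rw [Nat.cast_one, one_mul]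
        exact hc) (fun v => Q (c + (v : ℕ))) (by
        intro v hv
        rw [hQ] at hv
        simp only at hv
        push Not at hv
        obtain ⟨h, n, r1, r2, r3, r4, q, a, r5, r6, r7, r8, r9⟩ := hv
        refine ⟨h, n, r1, r2, r3, r4, q, a, ?_, r6, r7, r8, r9⟩
        rw [one_mul]
        exact r5)
      refine h3.trans ?_
      apply one_div_le_one_div_of_le (by positivity)
      exact pow_le_pow_left₀ hk0.le hkk' _) (x / 2 ^ j) (Z (k, j)) (by
      intro t ht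
      rw [hZ] at ht
      simp only at ht
      rw [mem_filter, hS₂, mem_filter] at ht
      have htI := mem_Icc.1 (hSx ht.1.1)
      rw [mem_Icc]
      exact ⟨htI.1, ht.2.1⟩) (by
      intro t ht
      rw [hZ] at ht
      simp only at ht
      rw [mem_filter] at ht
      obtain ⟨-, r1, r2, -, b, F, r3, r4, r5, r6, r7, r8, q, h, n, a, r9, r10, r11, r12, r13, r14, r15, r16⟩ := ht
      have hLWk : L ^ W ≤ (k : ℝ) ^ (W + 1) := hconv W (by omega)
      refine ⟨r2, b, F, r3, r4.trans hLWk, r5.mono hLWk, r6, r7, ?_⟩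
      rw [hQ]
      intro hall
      have q1 := abs_le.1 r9
      have r6' : (2 : ℝ) ^ k ≤ 2 * (cat b F t : ℕ) := by exact_mod_cast r6
      have r7' : ((cat b F t : ℕ) : ℝ) ≤ 2 ^ k := by exact_mod_cast r7
      have hh1 : (1 : ℝ) ≤ h := by exact_mod_cast r10
      have har : (a : ℝ) = h * (q : ℝ) := by exact_mod_cast congrArg (fun z : ℤ => (z : ℝ)) r12
      have hq1 : (2 : ℝ) ^ k ≤ 4 * q := by linarith
      have hq2 : (q : ℝ) ≤ 2 * 2 ^ k := by linarith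
      have hq0 : (0 : ℝ) < q := by
        have : (0 : ℝ) < 2 ^ k := by positivity
        linarith
      have c0 := hall h n r10 (by
        have e1 : (h : ℝ) ≤ (k' : ℝ) ^ (J + 1) := (r11.trans (hconv J (by omega))).trans (pow_le_pow_left₀ hk0.le hkk' _)
        exact_mod_cast e1) (by
        have e1 : (h : ℝ) * 2 ^ k ≤ 8 * n := by
          have e2 : (h : ℝ) * 2 ^ k ≤ h * (4 * q) := mul_le_mul_of_nonneg_left hq1 (by linarith)
          have e3 : (a : ℝ) ≤ 2 * n := by exact_mod_cast r14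
          rw [har] at e3
          linarith
        have e4 : (h : ℝ) * 2 ^ k' ≤ M * n := by
          rw [hk', hM, pow_add]
          push_cast
          calc (h : ℝ) * (2 ^ k * 2 ^ c₁) = (h : ℝ) * 2 ^ k * 2 ^ c₁ := by ring
            _ ≤ 8 * n * 2 ^ c₁ := mul_le_mul_of_nonneg_right e1 (by positivity)
            _ = 8 * 2 ^ c₁ * n := by ring
        exact_mod_cast e4) (by
        have e1 : (n : ℝ) ≤ (k' : ℝ) ^ (J₂ + J + 1) * 2 ^ k' := by
          calc (n : ℝ) ≤ L ^ J₂ * a := r15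
            _ = L ^ J₂ * (h * q) := by rw [har]
            _ ≤ L ^ J₂ * (L ^ J * (2 * 2 ^ k)) := by
                apply mul_le_mul_of_nonneg_left _ (by positivity)
                exact mul_le_mul r11 hq2 hq0.le (by positivity)
            _ = 2 * L ^ (J₂ + J) * 2 ^ k := by rw [pow_add]; ring
            _ ≤ 2 * (2 * k) ^ (J₂ + J) * 2 ^ k := by
                apply mul_le_mul_of_nonneg_right _ (by positivity)
                apply mul_le_mul_of_nonneg_left _ (by norm_num)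
                exact pow_le_pow_left₀ hL0.le hkL _
            _ = 2 ^ (J₂ + J + 1) * (k : ℝ) ^ (J₂ + J) * 2 ^ k := by rw [mul_pow, pow_succ (2 : ℝ)]; ring
            _ ≤ k * (k : ℝ) ^ (J₂ + J) * 2 ^ k := by
                apply mul_le_mul_of_nonneg_right _ (by positivity)
                apply mul_le_mul_of_nonneg_right _ (by positivity)
                exact le_trans (pow_le_pow_right₀ (by norm_num) (by omega)) hkpow
            _ = (k : ℝ) ^ (J₂ + J + 1) * 2 ^ k := by rw [pow_succ (k : ℝ)]; ring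
            _ ≤ (k' : ℝ) ^ (J₂ + J + 1) * 2 ^ k' := by
                apply mul_le_mul (pow_le_pow_left₀ hk0.le hkk' _) _ (by positivity) (by positivity)
                exact pow_le_pow_right₀ (by norm_num) (by omega)
        exact_mod_cast e1) q a (by
        have e1 : ((|q - ((cat b F t : ℕ) : ℤ)| : ℤ) : ℝ) ≤ ((k' : ℝ)) ^ (W + 1) := by
          push_cast
          refine le_trans ?_ (hLWk.trans (pow_le_pow_left₀ hk0.le hkk' _))
          exact r9
        exact_mod_cast e1) r12 r13 r14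
      linarith)
    have hxj : ((x / 2 ^ j : ℕ) : ℝ) ≤ x := by exact_mod_cast Nat.div_le_self x _
    calc ((Z (k, j)).card : ℝ) ≤ ((x / 2 ^ j : ℕ) : ℝ) / (k : ℝ) ^ U := key
      _ ≤ x / (k : ℝ) ^ U := div_le_div_of_nonneg_right hxj (by positivity)
      _ ≤ x / L ^ (T + 7) := by
          apply div_le_div_of_nonneg_left hx0.le (by positivity)
          rw [hU]
          exact hconv (T + 7) (by omega)
  have h3 : (S₂.card : ℝ) ≤ ∑ i ∈ range K1 ×ˢ range K1, ((Z i).card : ℝ) := by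
    exact_mod_cast (card_le_card hsub).trans card_biUnion_le
  have hc2 : (S₂.card : ℝ) ≤ x / L ^ (T + 1) := by
    calc (S₂.card : ℝ) ≤ ∑ i ∈ range K1 ×ˢ range K1, ((Z i).card : ℝ) := h3
      _ ≤ ∑ _i ∈ range K1 ×ˢ range K1, x / L ^ (T + 7) := sum_le_sum hZb
      _ = (K1 * K1 : ℝ) * (x / L ^ (T + 7)) := by
          rw [sum_const, nsmul_eq_mul, card_product, card_range]
          push_cast
          ring
      _ ≤ (L ^ 3 * L ^ 3) * (x / L ^ (T + 7)) := by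
          apply mul_le_mul_of_nonneg_right _ (by positivity)
          exact mul_le_mul hK1r hK1r (Nat.cast_nonneg _) (by positivity)
      _ = x / L ^ (T + 1) := by
          have e : L ^ (T + 7) = L ^ 3 * L ^ 3 * L ^ (T + 1) := by ring
          rw [e]
          field_simp
  rw [hcard]
  push_cast
  calc (S₁.card : ℝ) + S₂.card ≤ x / L ^ (T + 1) + x / L ^ (T + 1) := add_le_add hc1 hc2
    _ = x / L ^ (T + 1) * 2 := by ring
    _ ≤ x / L ^ (T + 1) * L := mul_le_mul_of_nonneg_left (by linarith) (by positivity)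
    _ = x / L ^ T := by
        rw [pow_succ]
        field_simp

end Pool.Agent.U837.GV
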