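import Pool.Agent.U847.VT
import Pool.Agent.U837.CC.Tc

set_option autoImplicit false
set_option maxHeartbeats 4000000

/-!
Goldbach graphs: the vertices which are multiples of the neighbours of a random integer have many neighbours, for all the
graphs of a comparable or larger order at the same time.
-/

namespace Pool.Agent.U837.GV
open Finset
open Pool.Agent.N625.PT
open Pool.Agent.U847.PV
open Pool.Agent.W93.TD (HLs)
open Pool.Agent.W93.PG (WinP)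
open Pool.Agent.N469.GG (Nb)

/-- lower bounds for the degrees -/
lemma deg2 : ∃ c₂ : ℝ, 0 < c₂ ∧ ∃ n₀ : ℕ, ∀ n : ℕ, n₀ ≤ n →
    (c₂ * (n / Real.log n ^ 2) ≤ ((Nb n 0).card : ℝ)) ∧
    (∀ U a M : ℕ, Even a → 2 ≤ a → a ≤ n → M ≤ n / 2 → n ≤ 4 * M → HLs (1 / 2) U M (fun _ : Fin 1 => a) →
      c₂ * (n / Real.log n ^ 2) ≤ ((Nb n a).card : ℝ)) ∧
    (∀ a : ℕ, Even a → n < a → a ≤ 2 * n → WinP (1 / 2) 1 a → c₂ * (n / Real.log n ^ 2) ≤ ((Nb n a).card : ℝ)) := by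
  obtain ⟨c, hc, hlow⟩ := Pool.Agent.N469.TL.hls_low
  obtain ⟨c₁, hc₁, n₁, h1⟩ := Pool.Agent.N469.GG.deg_low
  refine ⟨min (c / 4) c₁, lt_min (by positivity) hc₁, n₁ + 16, fun n hn => ?_⟩
  obtain ⟨d0, -, d2⟩ := h1 n (by omega)
  have hn16 : (16 : ℝ) ≤ n := by exact_mod_cast (by omega : 16 ≤ n)
  have hn0 : (0 : ℝ) < n := by linarith
  obtain ⟨L, hL⟩ : ∃ L, L = Real.log (n : ℝ) := ⟨_, rfl⟩
  rw [← hL] at d0 d2 ⊢
  have hL0 : 0 < L := by rw [hL]; exact Real.log_pos (by linarith)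
  have hpos : 0 < (n : ℝ) / L ^ 2 := by positivity
  have hc3 : min (c / 4) c₁ * ((n : ℝ) / L ^ 2) ≤ c / 4 * (n / L ^ 2) := mul_le_mul_of_nonneg_right (min_le_left _ _) hpos.le
  have hc16 : min (c / 4) c₁ * ((n : ℝ) / L ^ 2) ≤ c₁ * (n / L ^ 2) := mul_le_mul_of_nonneg_right (min_le_right _ _) hpos.le
  refine ⟨hc16.trans d0, fun U a M ha h2a han hM1 hM2 hls => ?_, fun a ha han ha2n hwin => hc16.trans (d2 a ha han ha2n hwin)⟩
  have e1 := Pool.Agent.N469.GG.nb_pair n a ha h2a han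
  have e2 := hlow U M a (by omega) (by obtain ⟨k, hk⟩ := ha; exact ⟨k, by omega⟩) hls
  have e0 : ((Icc 1 M).filter (fun p : ℕ => p.Prime ∧ (p + a).Prime)).card ≤
      ((Icc 1 (n / 2)).filter (fun p : ℕ => p.Prime ∧ (p + a).Prime)).card := by
    apply card_le_card
    apply filter_subset_filter
    exact Icc_subset_Icc_right hM1
  have e3 : (((Icc 1 M).filter (fun p : ℕ => p.Prime ∧ (p + a).Prime)).card : ℝ) ≤ ((Nb n a).card : ℝ) := by
    exact_mod_cast e0.trans e1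
  refine le_trans ?_ (e2.trans e3)
  refine hc3.trans ?_
  have hM : (n : ℝ) / 4 ≤ (M : ℝ) := by
    have : (n : ℝ) ≤ 4 * (M : ℝ) := by exact_mod_cast hM2
    linarith
  have hM1' : (1 : ℝ) < (M : ℝ) := by linarith
  have hLM : Real.log (M : ℝ) ≤ L := by
    rw [hL]
    apply Real.log_le_log (by linarith)
    exact_mod_cast hM1.trans (Nat.div_le_self n 2)
  have hLM0 : 0 < Real.log (M : ℝ) := Real.log_pos hM1'
  calc c / 4 * (n / L ^ 2) = c * ((n / 4) / L ^ 2) := by ring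
    _ ≤ c * ((M : ℝ) / Real.log (M : ℝ) ^ 2) := by gcongr

variable {κ : ℤ} {C : ℕ → (ℕ → ℝ) → Prop}

open Classical in
/-- all the graphs at the same time -/
theorem v_vert (hC : TCls 2 κ C) (B J J₂ M W U : ℕ) (c₂ : ℝ) (hc₂ : 0 < c₂) (n₀ : ℕ)
    (hdeg : ∀ n : ℕ, n₀ ≤ n →
      (c₂ * (n / Real.log n ^ 2) ≤ ((Nb n 0).card : ℝ)) ∧
      (∀ U a M : ℕ, Even a → 2 ≤ a → a ≤ n → M ≤ n / 2 → n ≤ 4 * M → HLs (1 / 2) U M (fun _ : Fin 1 => a) →
        c₂ * (n / Real.log n ^ 2) ≤ ((Nb n a).card : ℝ)) ∧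
      (∀ a : ℕ, Even a → n < a → a ≤ 2 * n → WinP (1 / 2) 1 a → c₂ * (n / Real.log n ^ 2) ≤ ((Nb n a).card : ℝ))) :
    ∃ k₀ : ℕ, ∀ k : ℕ, k₀ ≤ k → ∀ p, C k p → ∀ c : ℤ, |c| ≤ B * (2 : ℤ) ^ k →
    ∀ Q : ℕ → Prop, (∀ v, ¬ Q v → ∃ h n : ℕ, 1 ≤ h ∧ h ≤ k ^ J ∧ h * 2 ^ k ≤ M * n ∧ n ≤ k ^ J₂ * 2 ^ k ∧
      ∃ (q : ℤ) (a : ℕ), |q - (c + κ * v)| ≤ (k : ℤ) ^ W ∧
      (a : ℤ) = h * q ∧ Even a ∧ a ≤ 2 * n ∧ ((Nb n a).card : ℝ) < c₂ * (n / Real.log n ^ 2)) →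
    ∑ v ∈ range (2 ^ k), (if Q v then 0 else p v) ≤ 1 / (k : ℝ) ^ U := by
  obtain ⟨k1, h1⟩ := t_windows hC B J W 1 (U + 1) 0 (1 / 2) (by norm_num) (fun m => WinP (1 / 2) 1 m) (fun m _ _ h => h)
  obtain ⟨k2, h2⟩ := t_pair hC B J J₂ (4 * M) W (U + 3) (1 / 2) (by norm_num)
  refine ⟨k1 + k2 + M * (n₀ + 3) + 3 * J₂ + 4, fun k hk p hp c hc Q hQ => ?_⟩
  have hk3 : (3 : ℝ) ≤ k := by exact_mod_cast (by omega : 3 ≤ k)
  have hk0 : (0 : ℝ) < k := by linarith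
  have hkb : k < 2 ^ k := Nat.lt_two_pow_self
  have g1 := h1 k (by omega) p hp c hc (fun v => ∀ h : ℕ, 1 ≤ h → h ≤ k ^ J → ∀ s : ℤ, |s| ≤ (k : ℤ) ^ W →
    0 < (h : ℤ) * (c + s + κ * v) → 2 ∣ (h : ℤ) * (c + s + κ * v) → WinP (1 / 2) 1 ((h : ℤ) * (c + s + κ * v)).toNat) (by
      intro v hv
      push Not at hv
      obtain ⟨h, q1, q2, s, q3, q4, q5, q6⟩ := hv
      exact ⟨h, q1, q2, s, q3, q4, q5, q6⟩)
  obtain ⟨R, hR⟩ : ∃ R : ℕ → ℕ → Prop, R = fun (i v : ℕ) => ∀ h : ℕ, 1 ≤ h → h ≤ k ^ J → h * 2 ^ k ≤ 4 * M * 2 ^ i →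
    ∀ s : ℤ, |s| ≤ (k : ℤ) ^ W → 0 ≤ (h : ℤ) * (c + s + κ * (v : ℤ)) → HLs (1 / 2) (U + 3 + J + W + 1) (2 ^ i)
      (fun _ : Fin 1 => ((h : ℤ) * (c + s + κ * (v : ℤ))).toNat) := ⟨_, rfl⟩
  obtain ⟨I, hI⟩ : ∃ I : Finset ℕ, I = (range (k ^ 2)).filter (fun i => 2 ^ i ≤ k ^ J₂ * 2 ^ k) := ⟨_, rfl⟩
  have g2 : ∀ i ∈ I, ∑ v ∈ range (2 ^ k), (if R i v then 0 else p v) ≤ 1 / (k : ℝ) ^ (U + 3) := by
    intro i hi
    rw [hI, mem_filter] at hi
    by_cases hbig : 2 ^ k ≤ 4 * M * 2 ^ i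
    · refine h2 k (by omega) p hp c hc (2 ^ i) hbig hi.2 (R i) ?_
      intro v hv
      rw [hR] at hv
      simp only at hv
      push Not at hv
      obtain ⟨h, q1, q2, q3, s, q4, q5, q6⟩ := hv
      exact ⟨h, q1, q2, q3, s, q4, q5, q6⟩
    · have : ∀ v, R i v := by
        intro v
        rw [hR]
        intro h q1 q2 q3
        exfalso
        apply hbig
        calc 2 ^ k = 1 * 2 ^ k := (one_mul _).symm
          _ ≤ h * 2 ^ k := Nat.mul_le_mul_right _ q1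
          _ ≤ _ := q3
      rw [sum_eq_zero (fun v _ => if_pos (this v))]
      positivity
  have hsum : ∑ v ∈ range (2 ^ k), (if Q v then 0 else p v) ≤
      1 / (k : ℝ) ^ (U + 1) + ∑ i ∈ I, ∑ v ∈ range (2 ^ k), (if R i v then 0 else p v) := by
    refine le_trans ?_ (add_le_add g1 le_rfl)
    rw [sum_comm, ← sum_add_distrib]
    apply sum_le_sum
    intro v _
    have hpv := hC.nonneg k p hp v
    have hnn : ∀ i ∈ I, (0 : ℝ) ≤ (if R i v then 0 else p v) := fun i _ => Pool.Agent.U847.VT.ite_nn hpv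
    have hnn2 : 0 ≤ ∑ i ∈ I, (if R i v then 0 else p v) := sum_nonneg hnn
    by_cases hv : Q v
    · rw [if_pos hv]
      exact add_nonneg (Pool.Agent.U847.VT.ite_nn hpv) hnn2
    · rw [if_neg hv]
      obtain ⟨h, n, hh1, hh2, hh3, hh4, q, a, hq, hae, hev, ha2, hbad⟩ := hQ v hv
      have hn3 : n₀ + 3 ≤ n := by
        by_contra hcon
        push Not at hcon
        have h5 : M * n ≤ M * (n₀ + 3) := Nat.mul_le_mul_left _ hcon.le
        have h6 : 1 * 2 ^ k ≤ h * 2 ^ k := Nat.mul_le_mul_right _ hh1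
        omega
      obtain ⟨d0, d1, d2⟩ := hdeg n (by omega)
      have e1 : (h : ℤ) * (c + (q - (c + κ * v)) + κ * v) = (a : ℤ) := by rw [hae]; ring
      obtain ⟨r, hr⟩ := hev
      rcases Nat.eq_zero_or_pos a with h0 | h0
      · exfalso
        rw [h0] at hbad
        linarith
      rcases le_or_gt a n with h5 | h5
      · obtain ⟨i, hi⟩ : ∃ i, i = Nat.log 2 (n / 2) := ⟨_, rfl⟩
        have hi1 : 2 ^ i ≤ n / 2 := by rw [hi]; exact Nat.pow_log_le_self 2 (by omega)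
        have hi2 : n / 2 < 2 ^ (i + 1) := by rw [hi]; exact Nat.lt_pow_succ_log_self (by norm_num) _
        have hi3 : n ≤ 4 * 2 ^ i := by
          rw [pow_succ] at hi2
          omega
        have hi4 : 2 ^ i ≤ k ^ J₂ * 2 ^ k := (hi1.trans (Nat.div_le_self n 2)).trans hh4
        have hiI : i ∈ I := by
          rw [hI, mem_filter, mem_range]
          refine ⟨?_, hi4⟩
          -- 2 ^ i ≤ k ^ J₂ * 2 ^ k < 2 ^ (k ^ 2)
          have f1 : k ^ J₂ ≤ 2 ^ ((Nat.log 2 k + 1) * J₂) := by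
            rw [pow_mul]
            exact Nat.pow_le_pow_left (Nat.lt_pow_succ_log_self (by norm_num) k).le J₂
          have f2 : (Nat.log 2 k + 1) * J₂ ≤ k * J₂ := by
            apply Nat.mul_le_mul_right
            have : Nat.log 2 k < k := Nat.log_lt_self 2 (by omega)
            omega
          have f3 : 2 ^ i ≤ 2 ^ (k * J₂ + k) := by
            calc 2 ^ i ≤ k ^ J₂ * 2 ^ k := hi4
              _ ≤ 2 ^ (k * J₂) * 2 ^ k := Nat.mul_le_mul_right _ (f1.trans (Nat.pow_le_pow_right (by norm_num) f2))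
              _ = 2 ^ (k * J₂ + k) := (pow_add _ _ _).symm
          have f4 : i ≤ k * J₂ + k := (Nat.pow_le_pow_iff_right (by norm_num)).1 f3
          have f5 : k * J₂ + k < k ^ 2 := by
            have : J₂ + 1 < k := by omega
            calc k * J₂ + k = k * (J₂ + 1) := by ring
              _ < k * k := Nat.mul_lt_mul_of_pos_left this (by omega)
              _ = k ^ 2 := (sq k).symm
          omega
        have hn : ¬ R i v := by
          intro hall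
          rw [hR] at hall
          have h6 := hall h hh1 hh2 (by
            calc h * 2 ^ k ≤ M * n := hh3
              _ ≤ M * (4 * 2 ^ i) := Nat.mul_le_mul_left _ hi3
              _ = 4 * M * 2 ^ i := by ring) (q - (c + κ * v)) hq (by rw [e1]; exact Int.natCast_nonneg _)
          rw [e1, Int.toNat_natCast] at h6
          have := d1 _ a (2 ^ i) ⟨r, hr⟩ (by omega) h5 hi1 hi3 h6
          linarith
        have h7 : (if R i v then (0 : ℝ) else p v) = p v := if_neg hn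
        have h8 := single_le_sum hnn hiI
        rw [h7] at h8
        exact h8.trans (le_add_of_nonneg_left (Pool.Agent.U847.VT.ite_nn hpv))
      · have hn : ¬ ∀ h : ℕ, 1 ≤ h → h ≤ k ^ J → ∀ s : ℤ, |s| ≤ (k : ℤ) ^ W →
          0 < (h : ℤ) * (c + s + κ * v) → 2 ∣ (h : ℤ) * (c + s + κ * v) →
          WinP (1 / 2) 1 ((h : ℤ) * (c + s + κ * v)).toNat := by
          intro hall
          have h6 := hall h hh1 hh2 (q - (c + κ * v)) hq (by rw [e1]; exact_mod_cast h0) (by rw [e1]; omega)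
          rw [e1, Int.toNat_natCast] at h6
          have := d2 a ⟨r, hr⟩ h5 ha2 h6
          linarith
        rw [if_neg hn]
        exact le_add_of_nonneg_right hnn2
  have hIc : (I.card : ℝ) ≤ (k : ℝ) ^ 2 := by
    rw [hI]
    have h3 := card_filter_le (range (k ^ 2)) (fun i => 2 ^ i ≤ k ^ J₂ * 2 ^ k)
    rw [card_range] at h3
    exact_mod_cast h3
  have h4 : ∑ i ∈ I, ∑ v ∈ range (2 ^ k), (if R i v then 0 else p v) ≤ 1 / (k : ℝ) ^ (U + 1) := by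
    calc ∑ i ∈ I, ∑ v ∈ range (2 ^ k), (if R i v then 0 else p v) ≤ ∑ _i ∈ I, 1 / (k : ℝ) ^ (U + 3) := sum_le_sum g2
      _ = I.card * (1 / (k : ℝ) ^ (U + 3)) := by rw [sum_const, nsmul_eq_mul]
      _ ≤ (k : ℝ) ^ 2 * (1 / (k : ℝ) ^ (U + 3)) := mul_le_mul_of_nonneg_right hIc (by positivity)
      _ = 1 / (k : ℝ) ^ (U + 1) := by
          rw [show U + 3 = 2 + (U + 1) by ring, pow_add]
          field_simp
  refine (hsum.trans (add_le_add le_rfl h4)).trans ?_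
  rw [← add_div, div_le_div_iff₀ (by positivity) (by positivity), pow_succ]
  have : 0 < (k : ℝ) ^ U := by positivity
  nlinarith

end Pool.Agent.U837.GV
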